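import Pool.Agent.Lib.helper5.LongL

open Set Topology TopologicalSpace

namespace Pool.Agent.Results.MP_526336_an.LongJames

/-- Every separable subspace has a separable dual. -/
def Asplund (X : Type) [NormedAddCommGroup X] [NormedSpace ℝ X] : Prop :=
  ∀ Y : Submodule ℝ X, SeparableSpace Y → SeparableSpace (StrongDual ℝ Y)

/-- `K` has a dense `Σ`-subset. -/
def Valdivia (K : Type) [TopologicalSpace K] : Prop :=
  ∃ (Γ : Type) (h : K → Γ → ℝ), IsEmbedding h ∧ Dense {x | {γ | h x γ ≠ 0}.Countable}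

/-- The closed unit ball of `Y*`, inside `Y*` with the weak* topology. -/
def Ball (Y : Type) [NormedAddCommGroup Y] [NormedSpace ℝ Y] : Set (WeakDual ℝ Y) :=
  {F | ‖WeakDual.toStrongDual F‖ ≤ 1}

open Classical in
/-- `(y, f)` is a Markushevich basis of `Y`. -/
def MBasis {Y Γ : Type} [NormedAddCommGroup Y] [NormedSpace ℝ Y] (y : Γ → Y)
    (f : Γ → StrongDual ℝ Y) : Prop :=
  (∀ a b, f a (y b) = if a = b then 1 else 0) ∧
    Dense ((Submodule.span ℝ (range y) : Submodule ℝ Y) : Set Y) ∧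
    ∀ x, (∀ γ, f γ x = 0) → x = 0

/-- `Y` has a countably 1-norming Markushevich basis. -/
def HasCNB (Y : Type) [NormedAddCommGroup Y] [NormedSpace ℝ Y] : Prop :=
  ∃ (Γ : Type) (y : Γ → Y) (f : Γ → StrongDual ℝ Y), MBasis y f ∧ ∀ x : Y,
    ‖x‖ = sSup {r | ∃ g : StrongDual ℝ Y, {γ | g (y γ) ≠ 0}.Countable ∧ ‖g‖ ≤ 1 ∧ r = |g x|}

/-- For `Z`, the bidual ball is not Valdivia and the dual has no countably 1-norming M-basis. -/
def Bad (Z : Type) [NormedAddCommGroup Z] [NormedSpace ℝ Z] : Prop :=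
  ¬ Valdivia (Ball (StrongDual ℝ Z)) ∧ ¬ HasCNB (StrongDual ℝ Z)

open Cardinal in
/-- An Asplund Banach space all of whose isomorphic copies are `Bad`. -/
theorem result : ∃ (X : Type) (_ : NormedAddCommGroup X) (_ : NormedSpace ℝ X),
    CompleteSpace X ∧ Asplund X ∧ ∀ (Z : Type) [NormedAddCommGroup Z] [NormedSpace ℝ Z],
      Nonempty (X ≃L[ℝ] Z) → Bad Z := by
  obtain ⟨X, _, _, δ, _, k⟩ := H5J.exLJ (Order.succ ℵ₁).ord.ToType
  obtain ⟨ψ, hψ⟩ := k.ind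
  refine ⟨X, _, _, inferInstance, fun Y h => k.asp hψ Y (IsSeparable.of_subtype _),
    fun Z _ _ ⟨T⟩ => ?_⟩
  obtain ⟨D, d0, k⟩ := k.equiv zero_le_one T
  have e : Order.succ ℵ₁ = aleph.{0} 2 := by rw [succ_aleph, one_add_one_eq_two]
  refine ⟨fun h => ?_, fun ⟨Γ, y, f, ⟨_, h1, _⟩, h2⟩ => k.nopl d0 (by simp)
    (H5V.sm aleph0_lt_aleph_one.le) h1 (c := 1 / 2) one_half_pos fun x => ?_⟩
  · rw [show Ball (StrongDual ℝ Z) = WeakDual.toStrongDual ⁻¹' Metric.closedBall 0 1 from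
      Set.ext fun _ => mem_closedBall_zero_iff.symm] at h
    obtain ⟨Γ, j, j1, j2⟩ := h
    exact k.noval d0 (fun a => a.toOrd) (fun a b h => Ordinal.ToType.mk.symm.strictMono h)
      (fun ξ h => ⟨Ordinal.ToType.mk ⟨ξ, mem_Iio.2 (h.trans_eq (congrArg ord e.symm))⟩, by simp⟩)
      j1 j2
  · have n0 := (norm_zero (E := StrongDual ℝ (StrongDual ℝ Z))).trans_le zero_le_one
    by_cases x0 : x = 0
    · exact ⟨0, by simp, n0, by simp [x0]⟩
    obtain ⟨_, ⟨g, g1, g2, rfl⟩, g3⟩ := exists_lt_of_lt_csSup (by exact ⟨_, 0, by simp, n0, rfl⟩)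
      ((half_lt_self (norm_pos_iff.2 x0)).trans_eq (h2 x))
    refine ⟨g, (g1.image y).mono ?_, g2, by linarith⟩
    rintro _ ⟨⟨γ, rfl⟩, h⟩
    exact ⟨γ, h, rfl⟩

end Pool.Agent.Results.MP_526336_an.LongJames
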